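import Pool.Agent.EuclW.Fin

open NumberField IsDedekindDomain

namespace Pool.Agent.Results.MP_05991a_nt.Continuity

/-- For every number field `K` of unit rank at least one and every nonzero prime ideal `𝔭` of its
ring of integers, the Euclidean minimum `M(f_{𝔭,c})` of the weighted norm is a continuous function
of the weight `c` on the half-line `[N𝔭, ∞)`. -/
theorem result :
    ∀ (K : Type*) [Field K] [NumberField K], 1 ≤ NumberField.Units.rank K →
      ∀ 𝔭 : HeightOneSpectrum (𝓞 K),
        ContinuousOn (fun c : ℝ => Pool.Agent.EuclW.euclideanMinimum 𝔭 c)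
          (Set.Ici (Ideal.absNorm 𝔭.asIdeal : ℝ)) := by
  intro K _ _ hK 𝔭
  exact Pool.Agent.EuclW.continuity hK

end Pool.Agent.Results.MP_05991a_nt.Continuity
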